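import Mathlib

/-!
MP_688fd0_co, type C2 (helper12, finding 4311 section 2): THE WALK OMEGA.
`Q` a group, `N0 <= N` normal subgroups, `N` of finite index `k`, `N / N0` finite cyclic, its order
with at most `Om` prime factors, all of them `> Om`; the (nonempty) set `S` generates `Q` modulo `N0`
as a monoid.
There is a nonempty word `w` in the letters of `S` (directed, no inverses) of length at most
`(k+1) k + 1 + Om Om (2k+1)` whose value lies in `N`, whose prefixes visit every coset of `N` and whose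
value generates `N` modulo `N0`.
-/

namespace Pool.Agent.Lib.MP_688fd0_co.SQ5.H14

set_option linter.unusedSectionVars false
set_option linter.style.haveILetI false

variable {Q : Type*} [Group Q]

/-- a word in the letters of `S` -/
def IsWord (S : Set Q) (w : List Q) : Prop := ∀ s ∈ w, s ∈ S

lemma IsWord.nil (S : Set Q) : IsWord S ([] : List Q) := by
  intro s hs; simp at hs

lemma IsWord.append {S : Set Q} {u v : List Q} (hu : IsWord S u) (hv : IsWord S v) :
    IsWord S (u ++ v) := by
  intro s hs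
  rcases List.mem_append.1 hs with h | h
  · exact hu s h
  · exact hv s h

lemma IsWord.singleton {S : Set Q} {s : Q} (hs : s ∈ S) : IsWord S [s] := by
  intro t ht
  rw [List.mem_singleton] at ht
  rw [ht]; exact hs

lemma IsWord.take {S : Set Q} {w : List Q} (hw : IsWord S w) (i : ℕ) : IsWord S (w.take i) :=
  fun s hs => hw s (List.mem_of_mem_take hs)

lemma IsWord.drop {S : Set Q} {w : List Q} (hw : IsWord S w) (i : ℕ) : IsWord S (w.drop i) :=
  fun s hs => hw s (List.mem_of_mem_drop hs)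

/-- the word `w` repeated `n` times -/
def rep (n : ℕ) (w : List Q) : List Q := (List.replicate n w).flatten

lemma rep_zero (w : List Q) : rep 0 w = [] := by simp [rep]

lemma rep_succ (n : ℕ) (w : List Q) : rep (n + 1) w = w ++ rep n w := by
  simp [rep, List.replicate_succ]

lemma rep_length (n : ℕ) (w : List Q) : (rep n w).length = n * w.length := by
  induction n with
  | zero => simp [rep_zero]
  | succ n ih => rw [rep_succ, List.length_append, ih]; ring

lemma rep_prod (n : ℕ) (w : List Q) : (rep n w).prod = w.prod ^ n := by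
  induction n with
  | zero => simp [rep_zero]
  | succ n ih => rw [rep_succ, List.prod_append, ih, pow_succ']

lemma IsWord.rep {S : Set Q} {w : List Q} (hw : IsWord S w) (n : ℕ) : IsWord S (rep n w) := by
  induction n with
  | zero => rw [rep_zero]; exact IsWord.nil S
  | succ n ih => rw [rep_succ]; exact hw.append ih

/-- every element is congruent modulo `N0` to the value of a word -/
def Reach (S : Set Q) (N0 : Subgroup Q) : Prop :=
  ∀ x : Q, ∃ w : List Q, IsWord S w ∧ x⁻¹ * w.prod ∈ N0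

lemma reach_of_submonoid {S : Set Q} {N0 : Subgroup Q}
    (h : ∀ x : Q, ∃ y ∈ Submonoid.closure S, x⁻¹ * y ∈ N0) : Reach S N0 := by
  intro x
  obtain ⟨y, hy, hxy⟩ := h x
  obtain ⟨l, hl, hp⟩ := Submonoid.exists_list_of_mem_closure hy
  exact ⟨l, hl, by rw [hp]; exact hxy⟩

lemma reach_of_finite [Finite Q] {S : Set Q} (N0 : Subgroup Q) (hS : Subgroup.closure S = ⊤) :
    Reach S N0 := by
  apply reach_of_submonoid
  intro x
  refine ⟨x, ?_, by rw [inv_mul_cancel]; exact N0.one_mem⟩
  rw [← Subgroup.closure_toSubmonoid_of_finite, hS]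
  exact Subgroup.mem_top x

lemma exists_short (N N0 : Subgroup Q) [N.Normal] [N.FiniteIndex] (h0 : N0 ≤ N) {S : Set Q}
    (hS : Reach S N0) (x y : Q ⧸ N) :
    ∃ w : List Q, IsWord S w ∧ w.length ≤ N.index ∧ x * ((w.prod : Q) : Q ⧸ N) = y := by
  classical
  have hP : ∃ n, ∃ w : List Q, IsWord S w ∧ w.length = n ∧ x * ((w.prod : Q) : Q ⧸ N) = y := by
    obtain ⟨z, hz⟩ := QuotientGroup.mk_surjective (x⁻¹ * y)
    obtain ⟨w, hw, hp⟩ := hS z
    refine ⟨_, w, hw, rfl, ?_⟩
    have : ((w.prod : Q) : Q ⧸ N) = (z : Q ⧸ N) := (QuotientGroup.eq.2 (h0 hp)).symm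
    rw [this, hz]; group
  obtain ⟨w, hw, hl, hp⟩ := Nat.find_spec hP
  refine ⟨w, hw, ?_, hp⟩
  by_contra hlt
  push Not at hlt
  haveI : Fintype (Q ⧸ N) := Fintype.ofFinite _
  obtain ⟨i, j, hij, he⟩ := Fintype.exists_ne_map_eq_of_card_lt
    (fun i : Fin (N.index + 1) => (((w.take i).prod : Q) : Q ⧸ N)) (by
      rw [Fintype.card_fin, ← Nat.card_eq_fintype_card]
      exact Nat.lt_succ_self _)
  have key : ∀ i j : Fin (N.index + 1), i < j →
      (((w.take i).prod : Q) : Q ⧸ N) = (((w.take j).prod : Q) : Q ⧸ N) → False := by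
    intro i j hij he
    have hj : (j : ℕ) ≤ N.index := Nat.lt_succ_iff.1 j.2
    have hi : (i : ℕ) < j := hij
    refine Nat.find_min hP (m := (w.take i ++ w.drop j).length) ?_ ?_
    · rw [List.length_append, List.length_take, List.length_drop]
      omega
    · refine ⟨_, (hw.take i).append (hw.drop j), rfl, ?_⟩
      rw [List.prod_append, QuotientGroup.mk_mul, he, ← QuotientGroup.mk_mul, ← List.prod_append,
        List.take_append_drop, hp]
  rcases lt_or_gt_of_ne hij with h | h
  · exact key i j h he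
  · exact key j i h he.symm

lemma exists_visit (N N0 : Subgroup Q) [N.Normal] [N.FiniteIndex] (h0 : N0 ≤ N) {S : Set Q}
    (hS : Reach S N0) (L : List (Q ⧸ N)) : ∀ x : Q ⧸ N,
    ∃ w : List Q, IsWord S w ∧ w.length ≤ L.length * N.index ∧
      ∀ c ∈ L, ∃ i ≤ w.length, x * (((w.take i).prod : Q) : Q ⧸ N) = c := by
  induction L with
  | nil =>
    intro x
    exact ⟨[], IsWord.nil S, by simp, by simp⟩
  | cons c L ih =>
    intro x
    obtain ⟨u, hu, hul, hup⟩ := exists_short N N0 h0 hS x c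
    obtain ⟨v, hv, hvl, hvp⟩ := ih c
    refine ⟨u ++ v, hu.append hv, ?_, ?_⟩
    · rw [List.length_append, List.length_cons]
      nlinarith
    · intro d hd
      rcases List.mem_cons.1 hd with h | h
      · refine ⟨u.length, by simp, ?_⟩
        rw [h, List.take_left, hup]
      · obtain ⟨i, hi, hp⟩ := hvp d h
        refine ⟨u.length + i, by simp [hi], ?_⟩
        rw [List.take_length_add_append, List.prod_append, QuotientGroup.mk_mul, ← mul_assoc, hup, hp]

/-- the closed walk through all cosets -/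
lemma exists_tour (N N0 : Subgroup Q) [N.Normal] [N.FiniteIndex] (h0 : N0 ≤ N) {S : Set Q}
    (hne : S.Nonempty) (hS : Reach S N0) :
    ∃ w : List Q, IsWord S w ∧ 1 ≤ w.length ∧ w.length ≤ (N.index + 1) * N.index + 1 ∧
      w.prod ∈ N ∧
      ∀ c : Q ⧸ N, ∃ i ≤ w.length, (((w.take i).prod : Q) : Q ⧸ N) = c := by
  classical
  haveI : Fintype (Q ⧸ N) := Fintype.ofFinite _
  obtain ⟨s, hs⟩ := hne
  obtain ⟨u, hu, hul, hup⟩ := exists_visit N N0 h0 hS (Finset.univ : Finset (Q ⧸ N)).toList
    (s : Q ⧸ N)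
  obtain ⟨v, hv, hvl, hvp⟩ := exists_short N N0 h0 hS (((s :: u).prod : Q) : Q ⧸ N) 1
  have hcard : (Finset.univ : Finset (Q ⧸ N)).toList.length = N.index := by
    rw [Finset.length_toList, Finset.card_univ, ← Nat.card_eq_fintype_card]; rfl
  rw [hcard] at hul
  have hsu : IsWord S (s :: u) := (IsWord.singleton hs).append hu
  refine ⟨(s :: u) ++ v, hsu.append hv, by simp, ?_, ?_, ?_⟩
  · rw [List.length_append, List.length_cons]; nlinarith
  · rw [← QuotientGroup.mk_mul, ← List.prod_append] at hvp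
    exact (QuotientGroup.eq_one_iff _).1 hvp
  · intro c
    obtain ⟨i, hi, hp⟩ := hup c (by simp)
    refine ⟨i + 1, by rw [List.length_append, List.length_cons]; omega, ?_⟩
    rw [List.take_append_of_le_length (by rw [List.length_cons]; omega), List.take_succ_cons,
      List.prod_cons, QuotientGroup.mk_mul, hp]

/-- Schreier with directed returns: a subgroup which contains `N0` and the values of all closed words
of length at most `2k+1` contains `N`. -/
lemma closed_words_generate (N N0 : Subgroup Q) [N.Normal] [N.FiniteIndex] (h0 : N0 ≤ N)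
    {S : Set Q} (hS : Reach S N0) (K : Subgroup Q) (hK0 : N0 ≤ K)
    (hK : ∀ w : List Q, IsWord S w → w.length ≤ 2 * N.index + 1 → w.prod ∈ N → w.prod ∈ K) :
    N ≤ K := by
  classical
  have ha : ∀ c : Q ⧸ N, ∃ w : List Q, IsWord S w ∧ w.length ≤ N.index ∧
      ((w.prod : Q) : Q ⧸ N) = c ∧ (c = 1 → w = []) := by
    intro c
    by_cases hc : c = 1
    · exact ⟨[], IsWord.nil S, by simp, by simp [hc], fun _ => rfl⟩
    · obtain ⟨w, hw, hl, hp⟩ := exists_short N N0 h0 hS 1 c
      exact ⟨w, hw, hl, by rw [← hp, one_mul], fun h => absurd h hc⟩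
  have hb : ∀ c : Q ⧸ N, ∃ w : List Q, IsWord S w ∧ w.length ≤ N.index ∧
      c * ((w.prod : Q) : Q ⧸ N) = 1 := fun c => exists_short N N0 h0 hS c 1
  choose a ha1 ha2 ha3 ha4 using ha
  choose b hb1 hb2 hb3 using hb
  have key : ∀ u : List Q, IsWord S u →
      u.prod * (a ((u.prod : Q) : Q ⧸ N)).prod⁻¹ ∈ K := by
    intro u
    induction u using List.reverseRecOn with
    | nil =>
      intro _
      have h1 : a (((([] : List Q).prod : Q)) : Q ⧸ N) = [] := ha4 _ (by simp)
      rw [h1]; simp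
    | append_singleton u s ih =>
      intro hus
      have hu : IsWord S u := fun t ht => hus t (List.mem_append_left _ ht)
      have hs : s ∈ S := hus s (by simp)
      have ih' := ih hu
      set c : Q ⧸ N := ((u.prod : Q) : Q ⧸ N) with hc
      set c' : Q ⧸ N := (((u ++ [s]).prod : Q) : Q ⧸ N) with hc'
      have hcc : c' = c * ((s : Q) : Q ⧸ N) := by
        rw [hc', List.prod_append, List.prod_singleton, QuotientGroup.mk_mul]
      have hv : ((a c ++ [s]) ++ b c').prod ∈ K := by
        apply hK _ (((ha1 c).append (IsWord.singleton hs)).append (hb1 c'))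
        · rw [List.length_append, List.length_append, List.length_singleton]
          have := ha2 c
          have := hb2 c'
          omega
        · apply (QuotientGroup.eq_one_iff _).1
          rw [List.prod_append, List.prod_append, List.prod_singleton, QuotientGroup.mk_mul,
            QuotientGroup.mk_mul, ha3 c, ← hcc, hb3 c']
      have hd : (a c' ++ b c').prod ∈ K := by
        apply hK _ ((ha1 c').append (hb1 c'))
        · rw [List.length_append]
          have := ha2 c'
          have := hb2 c'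
          omega
        · apply (QuotientGroup.eq_one_iff _).1
          rw [List.prod_append, QuotientGroup.mk_mul, ha3 c', hb3 c']
      have e : (u ++ [s]).prod * (a c').prod⁻¹ =
          (u.prod * (a c).prod⁻¹) * ((a c ++ [s]) ++ b c').prod * ((a c' ++ b c').prod)⁻¹ := by
        simp only [List.prod_append, List.prod_singleton]
        group
      rw [e]
      exact K.mul_mem (K.mul_mem ih' hv) (K.inv_mem hd)
  intro x hx
  obtain ⟨u, hu, hp⟩ := hS x
  have h1 := key u hu
  have huN : u.prod ∈ N := by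
    have : u.prod = x * (x⁻¹ * u.prod) := by group
    rw [this]
    exact N.mul_mem hx (h0 hp)
  have h2 : ((u.prod : Q) : Q ⧸ N) = 1 := (QuotientGroup.eq_one_iff _).2 huN
  rw [h2, ha4 1 rfl] at h1
  have h3 : u.prod ∈ K := by simpa using h1
  have h4 : x = u.prod * (x⁻¹ * u.prod)⁻¹ := by group
  rw [h4]
  exact K.mul_mem h3 (K.inv_mem (hK0 hp))

/-- THE WALK OMEGA, in terms of a map `psi` of `N` onto `Z/q`. -/
theorem omega_psi (N N0 : Subgroup Q) [N.Normal] [N.FiniteIndex] (h0 : N0 ≤ N) {S : Set Q}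
    (hSne : S.Nonempty) (hS : Reach S N0) {q : ℕ} (hq : 0 < q)
    (psi : N →* Multiplicative (ZMod q)) (hpsi : Function.Surjective psi)
    (hker : ∀ x (h : x ∈ N0), psi ⟨x, h0 h⟩ = 1) (Om : ℕ)
    (hOm : q.primeFactors.card ≤ Om) (hbig : ∀ p ∈ q.primeFactors, Om < p) :
    ∃ w : List Q, IsWord S w ∧ 1 ≤ w.length ∧
      w.length ≤ (N.index + 1) * N.index + 1 + Om * (Om * (2 * N.index + 1)) ∧
      (∀ c : Q ⧸ N, ∃ i ≤ w.length, (((w.take i).prod : Q) : Q ⧸ N) = c) ∧
      ∃ hw : w.prod ∈ N, IsUnit (Multiplicative.toAdd (psi ⟨w.prod, hw⟩)) := by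
  classical
  haveI : NeZero q := ⟨hq.ne'⟩
  -- the value as a function on `Q`
  let F : Q → ZMod q := fun x => if h : x ∈ N then Multiplicative.toAdd (psi ⟨x, h⟩) else 0
  have hF : ∀ x (h : x ∈ N), F x = Multiplicative.toAdd (psi ⟨x, h⟩) := by
    intro x h; simp only [F, dif_pos h]
  have hFmul : ∀ x ∈ N, ∀ y ∈ N, F (x * y) = F x + F y := by
    intro x hx y hy
    rw [hF x hx, hF y hy, hF (x * y) (N.mul_mem hx hy), ← toAdd_mul, ← map_mul]
    rfl
  have hFone : F 1 = 0 := by
    rw [hF 1 N.one_mem]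
    have : (⟨1, N.one_mem⟩ : N) = 1 := rfl
    rw [this, map_one]; rfl
  have hFpow : ∀ x ∈ N, ∀ n : ℕ, F (x ^ n) = n * F x := by
    intro x hx n
    induction n with
    | zero => simp [hFone]
    | succ n ih =>
      rw [pow_succ, hFmul _ (N.pow_mem hx n) _ hx, ih]
      push_cast; ring
  -- the reductions modulo p
  have hdvd : ∀ p ∈ q.primeFactors, p ∣ q := fun p hp => Nat.dvd_of_mem_primeFactors hp
  -- for every prime a closed word with value not divisible by p
  have hc : ∀ p ∈ q.primeFactors, ∃ w : List Q, IsWord S w ∧ w.length ≤ 2 * N.index + 1 ∧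
      w.prod ∈ N ∧ ((F w.prod).cast : ZMod p) ≠ 0 := by
    intro p hp
    by_contra hcon
    push Not at hcon
    have hpq := hdvd p hp
    haveI : Fact p.Prime := ⟨Nat.prime_of_mem_primeFactors hp⟩
    let K : Subgroup Q :=
      { carrier := {x | x ∈ N ∧ ((F x).cast : ZMod p) = 0}
        one_mem' := ⟨N.one_mem, by rw [hFone, ZMod.cast_zero]⟩
        mul_mem' := by
          rintro x y ⟨hx, hx0⟩ ⟨hy, hy0⟩
          refine ⟨N.mul_mem hx hy, ?_⟩
          rw [hFmul x hx y hy, ZMod.cast_add hpq, hx0, hy0, add_zero]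
        inv_mem' := by
          rintro x ⟨hx, hx0⟩
          refine ⟨N.inv_mem hx, ?_⟩
          have h1 : F x⁻¹ + F x = 0 := by
            rw [← hFmul _ (N.inv_mem hx) _ hx, inv_mul_cancel, hFone]
          have h2 : F x⁻¹ = - F x := eq_neg_of_add_eq_zero_left h1
          rw [h2, ZMod.cast_neg hpq, hx0, neg_zero] }
    have hK0 : N0 ≤ K := by
      intro x hx
      refine ⟨h0 hx, ?_⟩
      rw [hF x (h0 hx), hker x hx, toAdd_one, ZMod.cast_zero]
    have hNK : N ≤ K := by
      apply closed_words_generate N N0 h0 hS K hK0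
      intro w hw hl hwN
      exact ⟨hwN, hcon w hw hl hwN⟩
    obtain ⟨x, hx⟩ := hpsi (Multiplicative.ofAdd (1 : ZMod q))
    have h1 : F x.1 = 1 := by
      rw [hF x.1 x.2]
      have : (⟨x.1, x.2⟩ : N) = x := rfl
      rw [this, hx]; rfl
    have h2 : ((F x.1).cast : ZMod p) = 0 := (hNK x.2).2
    rw [h1, ZMod.cast_one hpq] at h2
    exact one_ne_zero h2
  obtain ⟨w0, hw0, hl1', hl0, hp0, hv0⟩ := exists_tour N N0 h0 hSne hS
  -- induction over the primes
  have main : ∀ T : Finset ℕ, T ⊆ q.primeFactors → ∃ w1 : List Q, IsWord S w1 ∧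
      w1.length ≤ T.card * (Om * (2 * N.index + 1)) ∧ w1.prod ∈ N ∧
      ∀ p ∈ T, ((F (w0 ++ w1).prod).cast : ZMod p) ≠ 0 := by
    intro T
    induction T using Finset.induction_on with
    | empty =>
      intro _
      exact ⟨[], IsWord.nil S, by simp, by simp [N.one_mem], by simp⟩
    | insert p T hpT ih =>
      intro hsub
      obtain ⟨w1, hw1, hl1, hN1, hne⟩ := ih (fun r hr => hsub (Finset.mem_insert_of_mem hr))
      obtain ⟨c, hcw, hcl, hcN, hcne⟩ := hc p (hsub (Finset.mem_insert_self p T))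
      -- the bad exponents
      let bad : ℕ → Finset ℕ := fun r => (Finset.range (Om + 1)).filter
        (fun e => ((F (w0 ++ w1).prod).cast : ZMod r) + e * ((F c.prod).cast : ZMod r) = 0)
      have hbad : ∀ r ∈ insert p T, (bad r).card ≤ 1 := by
        intro r hr
        haveI : Fact r.Prime := ⟨Nat.prime_of_mem_primeFactors (hsub hr)⟩
        rw [Finset.card_le_one]
        intro e he e' he'
        simp only [bad, Finset.mem_filter, Finset.mem_range] at he he'
        by_cases hz : ((F c.prod).cast : ZMod r) = 0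
        · exfalso
          rw [hz, mul_zero, add_zero] at he
          rcases Finset.mem_insert.1 hr with h | h
          · subst h; exact hcne hz
          · exact hne r h he.2
        · have h1 : (e : ZMod r) * ((F c.prod).cast : ZMod r) =
              (e' : ZMod r) * ((F c.prod).cast : ZMod r) := by
            have := he.2.trans he'.2.symm
            exact add_left_cancel this
          have h2 : (e : ZMod r) = (e' : ZMod r) := mul_right_cancel₀ hz h1
          have hr' := hbig r (hsub hr)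
          have h3 := (ZMod.natCast_eq_natCast_iff' e e' r).1 h2
          rwa [Nat.mod_eq_of_lt (by omega), Nat.mod_eq_of_lt (by omega)] at h3
      have hcount : ((insert p T).biUnion bad).card < (Finset.range (Om + 1)).card := by
        calc ((insert p T).biUnion bad).card ≤ (insert p T).card * 1 :=
              Finset.card_biUnion_le_card_mul _ _ _ hbad
          _ ≤ q.primeFactors.card := by rw [mul_one]; exact Finset.card_le_card hsub
          _ ≤ Om := hOm
          _ < (Finset.range (Om + 1)).card := by rw [Finset.card_range]; omega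
      obtain ⟨e, he, hne'⟩ := Finset.exists_mem_notMem_of_card_lt_card hcount
      have he' : e ≤ Om := by
        rw [Finset.mem_range] at he; omega
      refine ⟨w1 ++ rep e c, hw1.append (hcw.rep e), ?_, ?_, ?_⟩
      · rw [List.length_append, rep_length, Finset.card_insert_of_notMem hpT]
        have : e * c.length ≤ Om * (2 * N.index + 1) := Nat.mul_le_mul he' hcl
        nlinarith
      · rw [List.prod_append, rep_prod]
        exact N.mul_mem hN1 (N.pow_mem hcN e)
      · intro r hr h0'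
        apply hne'
        refine Finset.mem_biUnion.2 ⟨r, hr, ?_⟩
        simp only [bad, Finset.mem_filter]
        refine ⟨he, ?_⟩
        have hrq := hdvd r (hsub hr)
        rw [← List.append_assoc, List.prod_append (l₁ := w0 ++ w1), rep_prod,
          hFmul _ (by rw [List.prod_append]; exact N.mul_mem hp0 hN1) _ (N.pow_mem hcN e),
          hFpow _ hcN, ZMod.cast_add hrq, ZMod.cast_mul hrq, ZMod.cast_natCast hrq] at h0'
        exact h0'
  obtain ⟨w1, hw1, hl1, hN1, hne⟩ := main q.primeFactors (le_refl _)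
  have hN : (w0 ++ w1).prod ∈ N := by
    rw [List.prod_append]; exact N.mul_mem hp0 hN1
  refine ⟨w0 ++ w1, hw0.append hw1, by rw [List.length_append]; omega, ?_, ?_, hN, ?_⟩
  · rw [List.length_append]
    have : q.primeFactors.card * (Om * (2 * N.index + 1)) ≤ Om * (Om * (2 * N.index + 1)) :=
      Nat.mul_le_mul_right _ hOm
    omega
  · intro c
    obtain ⟨i, hi, hp⟩ := hv0 c
    refine ⟨i, by rw [List.length_append]; omega, ?_⟩
    rw [List.take_append_of_le_length hi, hp]
  · rw [← hF _ hN, ← ZMod.natCast_zmod_val (F (w0 ++ w1).prod), ZMod.isUnit_iff_coprime]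
    by_contra hcop
    obtain ⟨p, hp, hpv, hpq⟩ := Nat.Prime.not_coprime_iff_dvd.1 hcop
    apply hne p (Nat.mem_primeFactors.2 ⟨hp, hpq, hq.ne'⟩)
    rw [ZMod.cast_eq_val]
    exact (ZMod.natCast_eq_zero_iff _ _).2 hpv

/-- THE WALK OMEGA: `Q` any group, `N0 <= N` normal subgroups, `N` of finite index, `N / N0` finite
cyclic, its order `N0.relIndex N` with at most `Om` prime factors, all of them `> Om`; `S` a nonempty
set which generates `Q` modulo `N0` as a monoid. -/
theorem omega (N N0 : Subgroup Q) [N.Normal] [N.FiniteIndex] [hn0 : N0.Normal] (h0 : N0 ≤ N)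
    [IsCyclic (N ⧸ N0.subgroupOf N)] (hfin : N0.relIndex N ≠ 0) {S : Set Q}
    (hSne : S.Nonempty) (hS : Reach S N0) (Om : ℕ)
    (hOm : (N0.relIndex N).primeFactors.card ≤ Om)
    (hbig : ∀ p ∈ (N0.relIndex N).primeFactors, Om < p) :
    ∃ w : List Q, (∀ s ∈ w, s ∈ S) ∧ 1 ≤ w.length ∧
      w.length ≤ (N.index + 1) * N.index + 1 + Om * (Om * (2 * N.index + 1)) ∧
      w.prod ∈ N ∧
      (∀ x : Q, ∃ i ≤ w.length, x⁻¹ * (w.take i).prod ∈ N) ∧
      (∀ x ∈ N, ∃ m : ℕ, x⁻¹ * w.prod ^ m ∈ N0) := by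
  classical
  have hpos : 0 < N0.relIndex N := Nat.pos_of_ne_zero hfin
  have : NeZero (N0.relIndex N) := ⟨hfin⟩
  let e : Multiplicative (ZMod (Nat.card (N ⧸ N0.subgroupOf N))) ≃* N ⧸ N0.subgroupOf N :=
    zmodCyclicMulEquiv inferInstance
  let psi : N →* Multiplicative (ZMod (N0.relIndex N)) :=
    e.symm.toMonoidHom.comp (QuotientGroup.mk' (N0.subgroupOf N))
  have hpsi : Function.Surjective psi :=
    e.symm.surjective.comp (QuotientGroup.mk'_surjective (N0.subgroupOf N))
  have hker : ∀ x (h : x ∈ N0), psi ⟨x, h0 h⟩ = 1 := by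
    intro x h
    have h1 : (QuotientGroup.mk' (N0.subgroupOf N)) (⟨x, h0 h⟩ : N) = 1 :=
      (QuotientGroup.eq_one_iff _).2 (Subgroup.mem_subgroupOf.2 h)
    show e.symm ((QuotientGroup.mk' (N0.subgroupOf N)) (⟨x, h0 h⟩ : N)) = 1
    rw [h1, map_one]
  obtain ⟨w, hw, hl1, hl, hv, hN, hu⟩ := omega_psi N N0 h0 hSne hS hpos psi hpsi hker Om hOm hbig
  refine ⟨w, hw, hl1, hl, hN, ?_, ?_⟩
  · intro x
    obtain ⟨i, hi, hp⟩ := hv (x : Q ⧸ N)
    exact ⟨i, hi, QuotientGroup.eq.1 hp.symm⟩
  intro x hx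
  obtain ⟨u, hu'⟩ := hu
  refine ⟨(Multiplicative.toAdd (psi ⟨x, hx⟩) *
    ((u⁻¹ : (ZMod (N0.relIndex N))ˣ) : ZMod (N0.relIndex N))).val, ?_⟩
  have h1 : psi ((⟨x, hx⟩ : N)⁻¹ * (⟨w.prod, hN⟩ : N) ^
      (Multiplicative.toAdd (psi ⟨x, hx⟩) *
        ((u⁻¹ : (ZMod (N0.relIndex N))ˣ) : ZMod (N0.relIndex N))).val) = 1 := by
    rw [map_mul, map_inv, map_pow]
    apply Multiplicative.toAdd.injective
    rw [toAdd_mul, toAdd_inv, toAdd_pow, ← hu', toAdd_one, nsmul_eq_mul,
      ZMod.natCast_zmod_val, mul_assoc, Units.inv_mul, mul_one, neg_add_cancel]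
  have h2 : (QuotientGroup.mk' (N0.subgroupOf N)) ((⟨x, hx⟩ : N)⁻¹ * (⟨w.prod, hN⟩ : N) ^
      (Multiplicative.toAdd (psi ⟨x, hx⟩) *
        ((u⁻¹ : (ZMod (N0.relIndex N))ˣ) : ZMod (N0.relIndex N))).val) = 1 := by
    apply e.symm.injective
    rw [map_one]
    exact h1
  exact Subgroup.mem_subgroupOf.1 ((QuotientGroup.eq_one_iff _).1 h2)

/-- The form asked for by helper12: `S` a finite set with submonoid closure everything modulo `N0`. -/
theorem omega_finset (N N0 : Subgroup Q) [N.Normal] [N.FiniteIndex] [N0.Normal] (h0 : N0 ≤ N)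
    [IsCyclic (N ⧸ N0.subgroupOf N)] (hfin : N0.relIndex N ≠ 0) (S : Finset Q)
    (hSne : S.Nonempty)
    (hS : ∀ x : Q, ∃ y ∈ Submonoid.closure (S : Set Q), x⁻¹ * y ∈ N0) (Om : ℕ)
    (hOm : (N0.relIndex N).primeFactors.card ≤ Om)
    (hbig : ∀ p ∈ (N0.relIndex N).primeFactors, Om < p) :
    ∃ w : List Q, (∀ s ∈ w, s ∈ S) ∧ 1 ≤ w.length ∧
      w.length ≤ (N.index + 1) * N.index + 1 + Om * (Om * (2 * N.index + 1)) ∧
      w.prod ∈ N ∧
      (∀ x : Q, ∃ i ≤ w.length, x⁻¹ * (w.take i).prod ∈ N) ∧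
      (∀ x ∈ N, ∃ m : ℕ, x⁻¹ * w.prod ^ m ∈ N0) := by
  obtain ⟨w, hw, h⟩ := omega N N0 h0 hfin (S := (S : Set Q)) (by exact_mod_cast hSne)
    (reach_of_submonoid hS) Om hOm hbig
  exact ⟨w, fun s hs => Finset.mem_coe.1 (hw s hs), h⟩

/-- The same with `Q` finite and `S` a generating set of the group `Q`. -/
theorem omega_finite [Finite Q] (N N0 : Subgroup Q) [N.Normal] [N0.Normal] (h0 : N0 ≤ N)
    [IsCyclic (N ⧸ N0.subgroupOf N)] (S : Finset Q)
    (hSne : S.Nonempty) (hS : Subgroup.closure (S : Set Q) = ⊤) (Om : ℕ)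
    (hOm : (N0.relIndex N).primeFactors.card ≤ Om)
    (hbig : ∀ p ∈ (N0.relIndex N).primeFactors, Om < p) :
    ∃ w : List Q, (∀ s ∈ w, s ∈ S) ∧ 1 ≤ w.length ∧
      w.length ≤ (N.index + 1) * N.index + 1 + Om * (Om * (2 * N.index + 1)) ∧
      w.prod ∈ N ∧
      (∀ x : Q, ∃ i ≤ w.length, x⁻¹ * (w.take i).prod ∈ N) ∧
      (∀ x ∈ N, ∃ m : ℕ, x⁻¹ * w.prod ^ m ∈ N0) := by
  obtain ⟨w, hw, h⟩ := omega N N0 h0 (Subgroup.index_ne_zero_of_finite) (S := (S : Set Q))
    (by exact_mod_cast hSne) (reach_of_finite N0 hS) Om hOm hbig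
  exact ⟨w, fun s hs => Finset.mem_coe.1 (hw s hs), h⟩

end Pool.Agent.Lib.MP_688fd0_co.SQ5.H14
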